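import Pool.Agent.K3h39.TC.Final

/-!
# Topological conjugacy of diffeomorphisms is not Borel reducible to any Borel action of `S_∞`

`DiffR (𝓡 n) M r` is the group `Diff^r(M)` of the `C^r` diffeomorphisms of `M` (`r = ⊤`: of the
`C^∞` diffeomorphisms), `crTopology (𝓡 n) M r` is the `C^r` topology on it (`r = ⊤`: the `C^∞`
topology) and `TopConj f g` says that `h ∘ f = g ∘ h` for some homeomorphism `h` of `M`.
-/

set_option autoImplicit false

open Set
open scoped ContDiff Manifold
open Pool.Agent.H410R3.KS

namespace Pool.Agent.Results.MP_9aeaaa_lc.NotClassifiable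

universe v

/-- The Borel structure of the Polish group `S_∞` of all permutations of `ℕ` (topology of
pointwise convergence). -/
def borelPerm : MeasurableSpace (Equiv.Perm ℕ) :=
  MeasurableSpace.generateFrom {U | ∃ i j : ℕ, U = {π : Equiv.Perm ℕ | π i = j}}

/-- The action of `S_∞` on the measurable space `Z` is Borel. -/
def BorelAction (Z : Type v) [MeasurableSpace Z] [MulAction (Equiv.Perm ℕ) Z] : Prop :=
  @Measurable (Equiv.Perm ℕ × Z) Z (borelPerm.prod inferInstance) inferInstance
    (fun p => p.1 • p.2)

/-- **Topological conjugacy of diffeomorphisms is not classifiable by countable structures.**  Let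
`M` be a non-empty Hausdorff `C^∞` manifold without boundary of dimension `n ≥ 2` (for instance
a closed one) and let `0 ≤ r ≤ ∞`.  For every Borel action of `S_∞` on a standard Borel space `Z`
there is no map `f : Diff^r(M) → Z`, Borel for the `C^r` topology, such that `S` and `T` are
topologically conjugate if and only if `f S` and `f T` are in the same orbit. -/
theorem result (n : ℕ) (hn : 2 ≤ n) (M : Type) [TopologicalSpace M]
    [ChartedSpace (EuclideanSpace ℝ (Fin n)) M] [IsManifold (𝓡 n) ∞ M] [T2Space M] [Nonempty M]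
    (r : ℕ∞)
    (Z : Type v) [MeasurableSpace Z] [StandardBorelSpace Z] [MulAction (Equiv.Perm ℕ) Z]
    (hZ : BorelAction Z) :
    ¬ ∃ f : DiffR (𝓡 n) M r → Z,
      @Measurable (DiffR (𝓡 n) M r) Z (@borel _ (crTopology (𝓡 n) M r)) inferInstance f ∧
      ∀ S T : DiffR (𝓡 n) M r, TopConj S.map T.map ↔ ∃ π : Equiv.Perm ℕ, π • f S = f T := by
  obtain ⟨m, rfl⟩ : ∃ m, n = m + 2 := ⟨n - 2, by omega⟩
  exact Pool.Agent.K3h39.TC.main m M r Z hZ

end Pool.Agent.Results.MP_9aeaaa_lc.NotClassifiable
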